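import Pool.Agent.R825.MK.Final2
import Pool.Agent.R825.MK.Point
import Pool.Agent.R62.MKD2

/-!
# Power series of typical compact sets with full dimension and empty interior

For a compact set `K ⊆ [0, 1]` and a power series `f = ∑ a_i x^i` the set `f(K)` is the Minkowski
series `∑ a_i K^(i)`, where `K^(i)` is the set of all products of `i` elements of `K`
(`MinkPow K i`); `IsSeries a K L` says that the partial Minkowski sums converge to `L` in the
Hausdorff metric.

Main result: there is a power series, absolutely convergent on `[0, 1]`, such that for the typical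
compact set `K` the set `f(K)` has Hausdorff dimension `1` and empty interior (it is even a null set).

The proof is described in `Pool/Agent/R825/MK/Stmts.lean`; formal proofs of the parts: helper258
(upper bound), helper793 (counting), helper62 (asymptotic estimates), helper825.
-/

set_option autoImplicit false

open TopologicalSpace Filter Topology Set

namespace Pool.Agent.Results.MP_2cd596_an.FullDimensionNull

open Pool.Agent.R825.MK

/-- **Theorem.** There is an absolutely summable sequence `a` such that for every nonempty compact
`K ⊆ [0, 1]` the Minkowski series `f(K) = ∑ a_i K^(i)` converges in the Hausdorff metric, and for the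
typical `K` its sum has Hausdorff dimension `1`, empty interior and Lebesgue measure `0`.  On the
other hand the pointwise image of the typical `K` under an absolutely convergent power series always
has Hausdorff dimension `0`. -/
theorem result :
    (∃ a : ℕ → ℝ, Summable (fun i => |a i|) ∧
      (∀ K : KK01, ∃! L, IsSeries a K L) ∧
      ∀ᶠ K in residual KK01, ∀ L, IsSeries a K L →
        dimH (L : Set ℝ) = 1 ∧ interior (L : Set ℝ) = ∅ ∧ MeasureTheory.volume (L : Set ℝ) = 0) ∧
    (∀ a : ℕ → ℝ, Summable (fun i => |a i|) → ∀ᶠ K : KK01 in residual KK01,
      dimH ((fun x : ℝ => ∑' i, a i * x ^ i) '' (Subtype.val '' (K : Set (Icc (0 : ℝ) 1)))) = 0) := by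
  refine ⟨?_, pointwise_zero⟩
  obtain ⟨hs, hm⟩ := main Pool.Agent.R62.MKD2.D2_ok 1 le_rfl
  refine ⟨aa 1, ?_, ?_, ?_⟩
  · have h : (fun i => |aa 1 i|) = aa 1 := by
      funext i
      exact abs_of_pos (aa_pos _ i)
    rw [h]
    exact hs
  · intro K
    obtain ⟨L, hL⟩ := exists_isSeries (aa 1) (aa_pos _) hs K
    exact ⟨L, hL, fun L' hL' => tendsto_nhds_unique hL' hL⟩
  · filter_upwards [hm] with K hK L hL
    obtain ⟨h1, h2⟩ := hK L hL
    refine ⟨by rw [h1]; simp, ?_, h2⟩
    exact MeasureTheory.Measure.interior_eq_empty_of_null h2

end Pool.Agent.Results.MP_2cd596_an.FullDimensionNull
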